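import Pool.Agent.H26.WT.Lib

/-!
# Index one, the class of the even part is not constant (row IEV)
-/

set_option autoImplicit false

open Polynomial Matrix Pool.Agent.H63.WT

namespace Pool.Agent.H26.WT

/-- two rational points give a divisor of degree two -/
theorem two_points {F : Type} [Field F] (M : F[X]) (t t0 : F) (ht : t ≠ t0)
    (h1 : IsSquare (eval t M)) (h0 : IsSquare (eval t0 M)) :
    SqM ((X - C t) * (X - C t0)) M := by
  obtain ⟨y, hy⟩ := h1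
  obtain ⟨y0, hy0⟩ := h0
  have hne : t - t0 ≠ 0 := sub_ne_zero.mpr ht
  refine ⟨C (y / (t - t0)) * (X - C t0) + C (y0 / (t0 - t)) * (X - C t), ?_⟩
  have hne0 : t0 - t ≠ 0 := sub_ne_zero.mpr ht.symm
  have hc : IsCoprime (X - C t) (X - C t0) := isCoprime_X_sub_C_of_isUnit_sub hne.isUnit
  refine hc.mul_dvd ?_ ?_
  · rw [dvd_iff_isRoot, IsRoot.def]
    simp only [eval_sub, eval_pow, eval_add, eval_mul, eval_C, eval_X, sub_self, mul_zero,
      add_zero]
    rw [hy]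
    field_simp
    ring
  · rw [dvd_iff_isRoot, IsRoot.def]
    simp only [eval_sub, eval_pow, eval_add, eval_mul, eval_C, eval_X, sub_self, mul_zero,
      zero_add]
    rw [hy0]
    field_simp
    ring

open Classical in
theorem pf_IEV (hDIV : T_DIV) (hRMV : T_RMV) (hCAD : T_CAD) (hEU3 : T_EU3) (hEU4 : T_EU4)
    (hEU9 : T_EU9) (hFWD : T_FWD) (hPTB : T_PTB) (hNNR : T_NNR) (hGDT : T_GDT) (hIV : T_IV)
    (hLAL : T_LAL) (hSSQ : T_SSQ) : T_IEV := by
  intro F _ _ _ _ m M0 P1 P2 R1 R2 U1 U2 D hFail hex hall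
  have hF : LA F := hLAL F
  have h2 : (2 : F) ≠ 0 := hF.1
  obtain ⟨e1, e2, v, hv, hv0⟩ := two_el hIV hF
  have hcop12 : IsCoprime P1 P2 := D.sep.isCoprime
  have hcM : IsCoprime (P1 * P2) (C m * M0) := cop_M D.m0 D.cop
  obtain ⟨hnR, hI, hadd, heq⟩ := hCAD F hF P1 P2 R1 U1 (C m * M0) D.mon1 D.mon2 D.monR1 D.monU1
    D.fac1 D.sep hcM D.sq1 D.nn1
  have hqI : I2 (qc P1 P2 (C m * M0)) :=
    ((hEU9 F h2).2.1 P1 P2 _ D.mon1 hcop12 hcM.of_mul_left_left).mpr D.nn1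
  have hqq := e1 _ hqI
  have hRP : IsCoprime R1 P2 := by
    rw [D.fac1] at hcop12
    exact hcop12.of_mul_left_left
  have hRR : IsCoprime R1 R2 := by
    rw [D.fac2] at hRP
    exact hRP.of_mul_right_left
  have hRU : IsCoprime R1 U2 := by
    rw [D.fac2] at hRP
    exact hRP.of_mul_right_right
  -- the value at `U₂`
  have hdiv := hDIV F m M0 P1 P2 R1 U1 D.m0 D.mon0 D.sep0 D.deg0 D.mon1 D.mon2 D.monR1
    D.monU1 D.fac1 D.sep D.cop D.sq1 D.nn1 D.ram1 hex hall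
  obtain ⟨-, hUo, hUe⟩ := hdiv U2 D.monU2 D.sq2
  have hU : cc P1 P2 R1 (C m * M0) U2 = U2.natDegree • v := by
    rcases Nat.even_or_odd U2.natDegree with h | h
    · rw [hUe h, smul_even (e1 v hv) h]
    · rw [smul_odd (e1 v hv) h]
      exact e2 _ _ (hI U2 hRU) hv (hUo h) hv0
  -- the value at `R₂`
  have hR : cc P1 P2 R1 (C m * M0) R2 = R2.natDegree • v :=
    add_val hIV hF (cc P1 P2 R1 (C m * M0)) R1 R2 v hv hv0 (cc_one _ _ _ _) hRR hI hadd
      (fun p hp hpi hpR => (hRMV F m M0 P1 P2 R1 R2 U1 U2 D hFail p hp hpi).2 hpR) R2 D.monR2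
      dvd_rfl
  have hdeg : P2.natDegree = R2.natDegree + U2.natDegree := by
    conv_lhs => rw [D.fac2]
    exact D.monR2.natDegree_mul D.monU2
  have hP : cc P1 P2 R1 (C m * M0) P2 = v := by
    have h3 := hadd R2 U2 D.monR2 D.monU2 hRR hRU
    rw [← D.fac2] at h3
    rw [h3, hU, hR, ← add_smul, ← hdeg, smul_odd (e1 v hv) D.odd2]
  -- the form of `P₁` is anisotropic
  have hq3 := hEU3 F h2 m M0 P1 P2 D.m0 D.mon0 D.deg0 D.mon1 D.mon2 hcop12 D.cop D.even1
  have hM1 : IsCoprime M0 P1 := D.cop.of_mul_left_left.symm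
  have hm2 : IsSquare (m ^ P1.natDegree) := by
    obtain ⟨k, hk⟩ := D.even1
    exact ⟨m ^ k, by rw [hk, pow_add]⟩
  have hn1 : IsSquare (nn M0 P1) := by
    have h4 := (hGDT F P1 D.mon1).2.2.2.1 (C m) M0
    rw [(hGDT F P1 D.mon1).2.2.2.2.1 m] at h4
    have h5 := (hNNR F M0 P1 D.mon0 D.mon1).2
    rw [D.deg0] at h5
    have h6 : ((-1 : F)) ^ (4 * P1.natDegree) = 1 := by
      rw [pow_mul, show ((-1 : F)) ^ 4 = 1 by ring, one_pow]
    rw [h6, one_mul] at h5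
    have h7 := D.nn1
    rw [h4, ← h5] at h7
    have h8 : IsSquare ((m ^ P1.natDegree * nn M0 P1) * (m ^ P1.natDegree)) := h7.mul hm2
    obtain ⟨y, hy⟩ := h8
    refine ⟨y / m ^ P1.natDegree, ?_⟩
    have hmk : m ^ P1.natDegree ≠ 0 := pow_ne_zero _ D.m0
    field_simp
    rw [show y ^ 2 = y * y by ring, ← hy]
    ring
  have hG1 : G m M0 P1 ≠ 0 := by
    intro h
    rw [h, sub_zero] at hq3
    have h9 : cc P1 P2 R1 (C m * M0) P2 = 0 := by
      rw [cc, ← heq P2 hcop12, ← hq3, smul_odd hqq D.odd2, hqq]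
    exact hv0 (hP.symm.trans h9)
  have hG1I : I2 (G m M0 P1) := (((hEU9 F h2).1 m M0 P1 D.m0 D.mon0 D.deg0 hM1).1).mpr hn1
  -- a good point
  obtain ⟨t1, ht1⟩ := hex
  obtain ⟨t0, ht0Z, -, ht0n, ht0s⟩ := (hPTB F m M0 D.m0 D.mon0 D.sep0 D.deg0).1 t1 1 one_pos ht1
    P1.roots.toFinset
  have hP10 : P1 ≠ 0 := D.mon1.ne_zero
  have hne : ∀ t : F, t ∉ P1.roots.toFinset → eval t P1 ≠ 0 := by
    intro t ht h
    exact ht (by rw [Multiset.mem_toFinset, mem_roots hP10]; exact h)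
  have ht00 : eval t0 M0 ≠ 0 := fun h => ht0n (by rw [h, mul_zero])
  have hcx : ∀ (A : F[X]) (t : F), eval t A ≠ 0 → IsCoprime A (X - C t) := by
    intro A t ht
    rw [isCoprime_comm]
    exact (irreducible_X_sub_C t).coprime_iff_not_dvd.mpr (fun h => ht (dvd_iff_isRoot.mp h))
  have hc0 : IsCoprime M0 (X - C t0) := hcx M0 t0 ht00
  have hnx : ∀ t : F, nn M0 (X - C t) = eval t M0 := by
    intro t
    have h9 := (hNNR F M0 (X - C t) D.mon0 (monic_X_sub_C t)).2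
    rw [D.deg0, natDegree_X_sub_C, (hGDT F (X - C t) (monic_X_sub_C t)).2.2.2.2.2.2 t rfl M0] at h9
    rw [h9]
    ring
  have hnmul := (hGDT F M0 D.mon0).2.2.2.1
  have hco : IsCoprime M0 (P1 * (X - C t0) * (X - C t0)) := (hM1.mul_right hc0).mul_right hc0
  have hns : IsSquare (nn M0 (P1 * (X - C t0) * (X - C t0))) := by
    rw [hnmul, hnmul, hnx, mul_assoc]
    exact hn1.mul ⟨eval t0 M0, rfl⟩
  have hCm : IsCoprime M0 (C m) :=
    (isCoprime_one_right (x := M0)).of_isCoprime_of_dvd_right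
      (isUnit_C.mpr (isUnit_iff_ne_zero.mpr D.m0)).dvd
  have hGs : G m M0 (P1 * (X - C t0) * (X - C t0)) = G m M0 P1 := by
    refine (hSSQ F h2 M0 D.mon0).1 _ _ (X - C t0) (hCm.mul_right hco) (hCm.mul_right hM1) ?_
    rw [show C m * (P1 * (X - C t0) * (X - C t0)) - C m * P1 * (X - C t0) ^ 2 = 0 by ring]
    exact dvd_zero _
  have hAn : Anis (gm M0 (P1 * (X - C t0) * (X - C t0))) := by
    by_contra h
    have h10 := ((((hEU9 F h2).1 m M0 _ D.m0 D.mon0 D.deg0 hco).2 hns).1).mpr h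
    rw [hGs] at h10
    exact hG1 h10
  obtain ⟨t, htZ, htn, hMet, hts⟩ := hFWD F M0 (P1 * (X - C t0)) t0 D.mon0 D.sep0 D.deg0
    (hM1.mul_right hc0) ht00 hAn (P1.roots.toFinset ∪ {t0})
  rw [Finset.mem_union, Finset.mem_singleton, not_or] at htZ
  obtain ⟨htZ1, htt0⟩ := htZ
  have htm : IsSquare (m * eval t M0) := by
    have h11 : IsSquare ((eval t M0 * eval t0 M0) * (m * eval t0 M0)) := hts.mul ht0s
    obtain ⟨y, hy⟩ := h11
    refine ⟨y / eval t0 M0, ?_⟩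
    field_simp
    rw [show y ^ 2 = y * y by ring, ← hy]
    ring
  -- the divisor
  have hcM0t : IsCoprime M0 (X - C t) := hcx M0 t htn
  have hcT1 : IsCoprime P1 ((X - C t) * (X - C t0)) :=
    (hcx P1 t (hne t htZ1)).mul_right (hcx P1 t0 (hne t0 ht0Z))
  have hTm : ((X - C t) * (X - C t0)).Monic := (monic_X_sub_C t).mul (monic_X_sub_C t0)
  have hTd : ((X - C t) * (X - C t0)).natDegree = 2 := by
    rw [(monic_X_sub_C t).natDegree_mul (monic_X_sub_C t0), natDegree_X_sub_C, natDegree_X_sub_C]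
  have hTe : Even ((X - C t) * (X - C t0)).natDegree := by rw [hTd]; exact even_two
  have hTs : SqM ((X - C t) * (X - C t0)) (C m * M0) := by
    refine two_points _ t t0 htt0 ?_ ?_
    · rw [eval_mul, eval_C]; exact htm
    · rw [eval_mul, eval_C]; exact ht0s
  have hco2 : IsCoprime M0 (P1 * (X - C t0) * (X - C t)) := (hM1.mul_right hc0).mul_right hcM0t
  have hns2 : IsSquare (nn M0 (P1 * (X - C t0) * (X - C t))) := by
    rw [hnmul, hnmul, hnx, hnx, mul_assoc]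
    refine hn1.mul ?_
    rw [mul_comm]
    exact hts
  have hGt : G m M0 (P1 * ((X - C t) * (X - C t0))) = 0 := by
    have h12 := ((((hEU9 F h2).1 m M0 _ D.m0 D.mon0 D.deg0 hco2).2 hns2).2).mpr hMet
    rw [show P1 * ((X - C t) * (X - C t0)) = P1 * (X - C t0) * (X - C t) by ring]
    exact h12
  have hcPT : IsCoprime (P1 * ((X - C t) * (X - C t0))) M0 := by
    rw [show P1 * ((X - C t) * (X - C t0)) = P1 * (X - C t0) * (X - C t) by ring]
    exact hco2.symm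
  have hsy := hEU4 F h2 m M0 P1 _ D.m0 D.mon0 D.deg0 D.mon1 hTm hcT1 hcPT D.even1 hTe hTs
  rw [hGt, sub_zero] at hsy
  obtain ⟨hRT, -, hTz⟩ := hdiv _ hTm hTs
  have h13 := hTz hTe
  rw [cc, smul_even hqq hTe, zero_add, ← heq _ hcT1, hsy] at h13
  exact hG1 h13

end Pool.Agent.H26.WT
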