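import Pool.Agent.H26.WT.Lib

/-!
# Index one, the class of the odd part is not constant (row IOD)
-/

set_option autoImplicit false

open Polynomial Matrix Pool.Agent.H63.WT

namespace Pool.Agent.H26.WT

open Classical in
theorem pf_IOD (hDIV : T_DIV) (hRMV : T_RMV) (hCAD : T_CAD) (hEU7 : T_EU7)
    (hEU9 : T_EU9) (hFWD : T_FWD) (hPTB : T_PTB) (hNNR : T_NNR) (hGDT : T_GDT) (hIV : T_IV)
    (hLAL : T_LAL) : T_IOD := by
  intro F _ _ _ _ m M0 P1 P2 R1 R2 U1 U2 D hFail hex hall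
  have hF : LA F := hLAL F
  have h2 : (2 : F) ≠ 0 := hF.1
  obtain ⟨e1, e2, v, hv, hv0⟩ := two_el hIV hF
  have hcop12 : IsCoprime P1 P2 := D.sep.isCoprime
  have hcop21 : IsCoprime P2 P1 := hcop12.symm
  have hcop' : IsCoprime (P2 * P1) M0 := by rw [mul_comm]; exact D.cop
  have hsep' : (P2 * P1).Separable := by rw [mul_comm]; exact D.sep
  have hcM : IsCoprime (P2 * P1) (C m * M0) := cop_M D.m0 hcop'
  obtain ⟨hnR, hI, hadd, heq⟩ := hCAD F hF P2 P1 R2 U2 (C m * M0) D.mon2 D.mon1 D.monR2 D.monU2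
    D.fac2 hsep' hcM D.sq2 D.nn2
  have hqI : I2 (qc P2 P1 (C m * M0)) :=
    ((hEU9 F h2).2.1 P2 P1 _ D.mon2 hcop21 hcM.of_mul_left_left).mpr D.nn2
  have hqq := e1 _ hqI
  have hRP : IsCoprime R2 P1 := by
    rw [D.fac2] at hcop21
    exact hcop21.of_mul_left_left
  have hRR : IsCoprime R2 R1 := by
    rw [D.fac1] at hRP
    exact hRP.of_mul_right_left
  have hRU : IsCoprime R2 U1 := by
    rw [D.fac1] at hRP
    exact hRP.of_mul_right_right
  -- the value at `U₁`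
  obtain ⟨-, hUo, hUe⟩ := hDIV F m M0 P2 P1 R2 U2 D.m0 D.mon0 D.sep0 D.deg0 D.mon2 D.mon1 D.monR2
    D.monU2 D.fac2 hsep' hcop' D.sq2 D.nn2 D.ram2 hex hall U1 D.monU1 D.sq1
  have hU : cc P2 P1 R2 (C m * M0) U1 = U1.natDegree • v := by
    rcases Nat.even_or_odd U1.natDegree with h | h
    · rw [hUe h, smul_even (e1 v hv) h]
    · rw [smul_odd (e1 v hv) h]
      exact e2 _ _ (hI U1 hRU) hv (hUo h) hv0
  -- the value at `R₁`
  have hR : cc P2 P1 R2 (C m * M0) R1 = R1.natDegree • v :=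
    add_val hIV hF (cc P2 P1 R2 (C m * M0)) R2 R1 v hv hv0 (cc_one _ _ _ _) hRR hI hadd
      (fun p hp hpi hpR => (hRMV F m M0 P1 P2 R1 R2 U1 U2 D hFail p hp hpi).1 hpR) R1 D.monR1
      dvd_rfl
  have hdeg : P1.natDegree = R1.natDegree + U1.natDegree := by
    conv_lhs => rw [D.fac1]
    exact D.monR1.natDegree_mul D.monU1
  have hP : cc P2 P1 R2 (C m * M0) P1 = 0 := by
    have h3 := hadd R1 U1 D.monR1 D.monU1 hRR hRU
    rw [← D.fac1] at h3
    rw [h3, hU, hR, ← add_smul, ← hdeg, smul_even (e1 v hv) D.even1]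
  have hsy : sy P2 (C m * M0) P1 = 0 := by
    rw [cc, smul_even hqq D.even1, zero_add, ← heq P1 hcop21] at hP
    exact hP
  -- norms
  have hnm : IsSquare (m * nn M0 P2) := by
    have h4 := (hGDT F P2 D.mon2).2.2.2.1 (C m) M0
    rw [(hGDT F P2 D.mon2).2.2.2.2.1 m] at h4
    have h5 := (hNNR F M0 P2 D.mon0 D.mon2).2
    rw [D.deg0] at h5
    have h6 : ((-1 : F)) ^ (4 * P2.natDegree) = 1 := by
      rw [pow_mul, show ((-1 : F)) ^ 4 = 1 by ring, one_pow]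
    rw [h6, one_mul] at h5
    have h7 := D.nn2
    rw [h4, ← h5] at h7
    obtain ⟨k, hk⟩ := D.odd2
    rw [hk] at h7
    obtain ⟨y, hy⟩ := h7
    refine ⟨y / m ^ k, ?_⟩
    have hmk : m ^ k ≠ 0 := pow_ne_zero _ D.m0
    field_simp
    rw [show y ^ 2 = y * y by ring, ← hy]
    ring
  have hM2 : IsCoprime M0 P2 := D.cop.of_mul_left_right.symm
  -- the form at a rational point
  have key : ∀ t : F, eval t P2 ≠ 0 → eval t M0 ≠ 0 → IsSquare (m * eval t M0) →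
      cc P2 P1 R2 (C m * M0) (X - C t) = - G m M0 (P2 * (X - C t)) ∧
      IsSquare (nn M0 (P2 * (X - C t))) ∧ IsCoprime M0 (P2 * (X - C t)) := by
    intro t ht2 ht0 hts
    have hct : IsCoprime P2 (X - C t) := by
      rw [isCoprime_comm]
      exact (irreducible_X_sub_C t).coprime_iff_not_dvd.mpr
        (fun h => ht2 (dvd_iff_isRoot.mp h))
    have hc0 : IsCoprime M0 (X - C t) := by
      rw [isCoprime_comm]
      exact (irreducible_X_sub_C t).coprime_iff_not_dvd.mpr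
        (fun h => ht0 (dvd_iff_isRoot.mp h))
    refine ⟨?_, ?_, hM2.mul_right hc0⟩
    · have h8 := hEU7 F h2 m M0 P2 P1 t D.m0 D.mon0 D.deg0 D.mon2 D.mon1 hcop21 hcop' D.odd2 ht2
        ht0 hts
      rw [hsy, zero_sub] at h8
      rw [cc, natDegree_X_sub_C, one_smul, ← heq _ hct, h8]
    · rw [(hGDT F M0 D.mon0).2.2.2.1 P2 (X - C t)]
      have h9 := (hNNR F M0 (X - C t) D.mon0 (monic_X_sub_C t)).2
      rw [D.deg0, natDegree_X_sub_C, (hGDT F (X - C t) (monic_X_sub_C t)).2.2.2.2.2.2 t rfl M0]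
        at h9
      rw [h9]
      have h10 : IsSquare ((m * nn M0 P2) * (m * eval t M0)) := hnm.mul hts
      obtain ⟨y, hy⟩ := h10
      refine ⟨y / m, ?_⟩
      have hm0 := D.m0
      field_simp
      rw [show y ^ 2 = y * y by ring, ← hy]
      ring
  -- a good point
  obtain ⟨t1, ht1⟩ := hex
  obtain ⟨t0, ht0Z, -, ht0n, ht0s⟩ := (hPTB F m M0 D.m0 D.mon0 D.sep0 D.deg0).1 t1 1 one_pos ht1
    P2.roots.toFinset
  have hP20 : P2 ≠ 0 := D.mon2.ne_zero
  have hne : ∀ t : F, t ∉ P2.roots.toFinset → eval t P2 ≠ 0 := by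
    intro t ht h
    exact ht (by rw [Multiset.mem_toFinset, mem_roots hP20]; exact h)
  have ht00 : eval t0 M0 ≠ 0 := fun h => ht0n (by rw [h, mul_zero])
  obtain ⟨k1, k2, k3⟩ := key t0 (hne t0 ht0Z) ht00 ht0s
  have hc0 := hall t0 ht0s
  have hG0 : G m M0 (P2 * (X - C t0)) ≠ 0 := by
    intro h
    rw [k1, h, neg_zero] at hc0
    exact hc0 rfl
  have hAn : Anis (gm M0 (P2 * (X - C t0))) := by
    by_contra h
    exact hG0 (((((hEU9 F h2).1 m M0 _ D.m0 D.mon0 D.deg0 k3).2 k2).1).mpr h)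
  obtain ⟨t, htZ, htn, hMet, hts⟩ := hFWD F M0 P2 t0 D.mon0 D.sep0 D.deg0 hM2 ht00 hAn
    P2.roots.toFinset
  have htm : IsSquare (m * eval t M0) := by
    have h11 : IsSquare ((eval t M0 * eval t0 M0) * (m * eval t0 M0)) := hts.mul ht0s
    obtain ⟨y, hy⟩ := h11
    refine ⟨y / eval t0 M0, ?_⟩
    field_simp
    rw [show y ^ 2 = y * y by ring, ← hy]
    ring
  obtain ⟨l1, l2, l3⟩ := key t (hne t htZ) htn htm
  have hGt : G m M0 (P2 * (X - C t)) = 0 :=
    ((((hEU9 F h2).1 m M0 _ D.m0 D.mon0 D.deg0 l3).2 l2).2).mpr hMet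
  exact hall t htm (by rw [l1, hGt, neg_zero])

end Pool.Agent.H26.WT
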