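import Pool.Agent.H26.WT.Lib

/-!
# The relaxed local lemma (row LLP)
-/

set_option autoImplicit false

open Polynomial Matrix Pool.Agent.H63.WT

namespace Pool.Agent.H26.WT

theorem pf_LLP (hIX1 : T_IX1) (hI2DP : T_I2D') (hI2C : T_I2C) (hEU3 : T_EU3) (hRMV : T_RMV)
    (hCAD : T_CAD) (hLAL : T_LAL) (hIV : T_IV) (hEU9 : T_EU9) : T_LLP := by
  intro F _ _ _ _ m M0 P1 P2 R1 R2 U1 U2 D hFail
  have hF : LA F := hLAL F
  have h2 : (2 : F) ≠ 0 := hF.1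
  obtain ⟨e1, e2, v, hv, hv0⟩ := two_el hIV hF
  obtain ⟨hm, hpt⟩ := hIX1 F m M0 P1 P2 R1 R2 U1 U2 D hFail
  have hG := hI2DP F m M0 P1 P2 R1 R2 U1 U2 D hFail hm hpt
  have hcop12 : IsCoprime P1 P2 := D.sep.isCoprime
  have hcM : IsCoprime (P1 * P2) (C m * M0) := cop_M D.m0 D.cop
  have hq : qc P1 P2 (C m * M0) = sy P1 (C m * M0) P2 := by
    rw [hEU3 F h2 m M0 P1 P2 D.m0 D.mon0 D.deg0 D.mon1 D.mon2 hcop12 D.cop D.even1, hG, sub_zero]
  obtain ⟨hnR, hI, hadd, heq⟩ := hCAD F hF P1 P2 R1 U1 (C m * M0) D.mon1 D.mon2 D.monR1 D.monU1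
    D.fac1 D.sep hcM D.sq1 D.nn1
  have hqI : I2 (qc P1 P2 (C m * M0)) :=
    ((hEU9 F h2).2.1 P1 P2 _ D.mon1 hcop12 hcM.of_mul_left_left).mpr D.nn1
  have hqq := e1 _ hqI
  have hRP : IsCoprime R1 P2 := by
    rw [D.fac1] at hcop12
    exact hcop12.of_mul_left_left
  have hRR : IsCoprime R1 R2 := by
    rw [D.fac2] at hRP
    exact hRP.of_mul_right_left
  have hRU : IsCoprime R1 U2 := by
    rw [D.fac2] at hRP
    exact hRP.of_mul_right_right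
  -- the value at `P₂`, first computation
  have hA : cc P1 P2 R1 (C m * M0) P2 = 0 := by
    rw [cc, ← heq P2 hcop12, ← hq, smul_odd hqq D.odd2, hqq]
  -- the value at `U₂`
  obtain ⟨hUe, hUs⟩ := hI2C F m M0 P1 P2 R1 R2 U1 U2 D hFail hm hpt U2 D.monU2 D.sq2
  have hU : cc P1 P2 R1 (C m * M0) U2 = 0 := by
    rw [cc, hUs, smul_even hqq hUe, add_zero]
  -- the value at `R₂`
  have hR : cc P1 P2 R1 (C m * M0) R2 = R2.natDegree • v :=
    add_val hIV hF (cc P1 P2 R1 (C m * M0)) R1 R2 v hv hv0 (cc_one _ _ _ _) hRR hI hadd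
      (fun p hp hpi hpR => (hRMV F m M0 P1 P2 R1 R2 U1 U2 D hFail p hp hpi).2 hpR) R2 D.monR2
      dvd_rfl
  have hdeg : P2.natDegree = R2.natDegree + U2.natDegree := by
    conv_lhs => rw [D.fac2]
    exact D.monR2.natDegree_mul D.monU2
  have hRodd : Odd R2.natDegree := by
    have h1 := D.odd2
    rw [hdeg] at h1
    exact (Nat.odd_add.mp h1).mpr hUe
  have hB : cc P1 P2 R1 (C m * M0) P2 = v := by
    have h3 := hadd R2 U2 D.monR2 D.monU2 hRR hRU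
    rw [← D.fac2] at h3
    rw [h3, hU, hR, add_zero, smul_odd (e1 v hv) hRodd]
  exact hv0 (hB.symm.trans hA)

end Pool.Agent.H26.WT
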