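import Pool.Agent.H63.WT.TC

/-!
# The relaxed local lemma: helper lemmas of helper26
-/

set_option autoImplicit false

open Polynomial Matrix Pool.Agent.H63.WT

namespace Pool.Agent.H26.WT

variable {F : Type} [Field F]

theorem smul_odd {A : Type} [AddCommGroup A] {x : A} (hx : x + x = 0) {n : ℕ} (hn : Odd n) :
    n • x = x := by
  obtain ⟨k, rfl⟩ := hn
  rw [add_smul, mul_comm, mul_smul, two_smul, hx, smul_zero, one_smul, zero_add]

theorem smul_even {A : Type} [AddCommGroup A] {x : A} (hx : x + x = 0) {n : ℕ} (hn : Even n) :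
    n • x = 0 := by
  obtain ⟨k, rfl⟩ := hn
  rw [← two_mul, mul_comm, mul_smul, two_smul, hx, smul_zero]

/-- induction over the monic divisors -/
theorem monic_ind (R : F[X]) (Q : F[X] → Prop) (h1 : Q 1)
    (hm : ∀ p T : F[X], p.Monic → Irreducible p → T.Monic → p * T ∣ R → Q T → Q (p * T)) :
    ∀ T : F[X], T.Monic → T ∣ R → Q T := by
  intro T
  induction h : T.natDegree using Nat.strong_induction_on generalizing T with
  | _ n ih =>
    intro hT hR
    by_cases hn : T.natDegree = 0
    · rw [hT.natDegree_eq_zero.mp hn]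
      exact h1
    · obtain ⟨p, hp, hpi, hpT⟩ := Polynomial.exists_monic_irreducible_factor T
        (Polynomial.not_isUnit_of_natDegree_pos T (Nat.pos_of_ne_zero hn))
      obtain ⟨T', rfl⟩ := hpT
      have hT' : T'.Monic := hp.of_mul_monic_left hT
      have hpd : 0 < p.natDegree := hpi.natDegree_pos
      have hd : (p * T').natDegree = p.natDegree + T'.natDegree := hp.natDegree_mul hT'
      refine hm p T' hp hpi hT' hR (ih T'.natDegree (by omega) T' rfl hT' ?_)
      exact (Dvd.intro_left p rfl).trans hR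

theorem sy_one (A M : F[X]) : sy A M 1 = 0 := by
  simp [sy]

theorem cc_one (A B R M : F[X]) : cc A B R M 1 = 0 := by
  simp [cc, sy_one]

/-- the two elements of `I²` -/
theorem two_el (hIV : T_IV) (hF : LA F) :
    (∀ x : WG F, I2 x → x + x = 0) ∧
    (∀ x y : WG F, I2 x → I2 y → x ≠ 0 → y ≠ 0 → x = y) ∧
    (∃ x : WG F, I2 x ∧ x ≠ 0) := by
  obtain ⟨h1, h2, h3, -⟩ := hIV F hF.1 (hF.2 F inferInstance).1 (hF.2 F inferInstance).2
  exact ⟨h1, h2, h3⟩

/-- a class which is additive and is the degree times `v` on the irreducible factors -/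
theorem add_val (hIV : T_IV) (hF : LA F) (c : F[X] → WG F) (W R v : _) (hv : I2 (v : WG F))
    (hv0 : v ≠ 0) (h1 : c 1 = 0) (hc : IsCoprime W R)
    (hI : ∀ T : F[X], IsCoprime W T → I2 (c T))
    (hadd : ∀ T T' : F[X], T.Monic → T'.Monic → IsCoprime W T → IsCoprime W T' →
      c (T * T') = c T + c T')
    (hp : ∀ p : F[X], p.Monic → Irreducible p → p ∣ R →
      (Odd p.natDegree → c p ≠ 0) ∧ (Even p.natDegree → c p = 0)) :
    ∀ T : F[X], T.Monic → T ∣ R → c T = T.natDegree • v := by
  obtain ⟨e1, e2, -⟩ := two_el hIV hF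
  refine monic_ind R (fun T => c T = T.natDegree • v) ?_ ?_
  · rw [h1, natDegree_one, zero_smul]
  · intro p T hpm hpi hT hd ih
    have hcd : IsCoprime W (p * T) := hc.of_isCoprime_of_dvd_right hd
    have hcp : IsCoprime W p := hcd.of_mul_right_left
    have hcT : IsCoprime W T := hcd.of_mul_right_right
    rw [hadd p T hpm hT hcp hcT, ih, hpm.natDegree_mul hT, add_smul]
    congr 1
    obtain ⟨ho, he⟩ := hp p hpm hpi ((Dvd.intro T rfl).trans hd)
    rcases Nat.even_or_odd p.natDegree with h | h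
    · rw [he h, smul_even (e1 v hv) h]
    · rw [smul_odd (e1 v hv) h]
      exact e2 _ _ (hI p hcp) hv (ho h) hv0

/-- the polynomial `M` is prime to the parts -/
theorem cop_M {m : F} {M0 P : F[X]} (hm : m ≠ 0) (h : IsCoprime P M0) :
    IsCoprime P (C m * M0) := by
  have hu : IsUnit (C m : F[X]) := isUnit_C.mpr (isUnit_iff_ne_zero.mpr hm)
  exact (isCoprime_mul_unit_left_right hu P M0).mpr h

end Pool.Agent.H26.WT
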